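import Mathlib

set_option autoImplicit false
set_option linter.unusedSectionVars false

/-!
# Creation and annihilation operators: products of creation operators
-/

namespace Pool.Agent.L0h12.CM

section list

variable {R : Type*} [Ring R]

theorem anti_prod {x : R} {l : List R} (h : ∀ y ∈ l, x * y = -(y * x)) :
    l.prod * x = x * l.prod ∨ l.prod * x = -(x * l.prod) := by
  induction l with
  | nil => left; rw [List.prod_nil, one_mul, mul_one]
  | cons y l ih =>
    have h1 := h y List.mem_cons_self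
    rcases ih fun z hz => h z (List.mem_cons_of_mem _ hz) with h2 | h2
    · right
      rw [List.prod_cons, mul_assoc, h2, ← mul_assoc, ← mul_assoc, h1, neg_mul, neg_neg]
    · left
      rw [List.prod_cons, mul_assoc, h2, ← mul_assoc, h1, mul_neg, neg_mul, mul_assoc]

theorem kill_left {x : R} {l : List R} (hx : x ∈ l) (h0 : x * x = 0)
    (h : ∀ y ∈ l, x * y = -(y * x)) : x * l.prod = 0 := by
  induction l with
  | nil => exact absurd hx List.not_mem_nil
  | cons y l ih =>
    rw [List.prod_cons, ← mul_assoc]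
    rcases List.mem_cons.1 hx with rfl | hx'
    · rw [h0, zero_mul]
    · rw [h y List.mem_cons_self, neg_mul, mul_assoc,
        ih hx' fun z hz => h z (List.mem_cons_of_mem _ hz), mul_zero, neg_zero]

theorem kill_right {x : R} {l : List R} (hx : x ∈ l) (h0 : x * x = 0)
    (h : ∀ y ∈ l, x * y = -(y * x)) : l.prod * x = 0 := by
  have h1 := kill_left hx h0 h
  rcases anti_prod h with h2 | h2
  · rw [h2, h1]
  · rw [h2, h1, neg_zero]

theorem comm_prod {x y : R} {l : List R} (hx : ∀ z ∈ l, x * z = -(z * x))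
    (hy : ∀ z ∈ l, y * z = -(z * y)) : x * y * l.prod = l.prod * (x * y) := by
  refine (Commute.list_prod_right l (x * y) fun z hz => ?_)
  change x * y * z = z * (x * y)
  rw [mul_assoc, hy z hz, mul_neg, ← mul_assoc, hx z hz, neg_mul, neg_neg, mul_assoc]

/-- The product of creation operators is not zero. -/
theorem prod_ne_zero [Nontrivial R] {l : List R} (h : l.Pairwise fun x y => x * y = -(y * x))
    (h' : ∀ x ∈ l, ∃ x', x * x' + x' * x = 1 ∧ ∀ y ∈ l, y ≠ x → x' * y = -(y * x'))
    (hnd : l.Nodup) : l.prod ≠ 0 := by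
  induction l with
  | nil => rw [List.prod_nil]; exact one_ne_zero
  | cons x l ih =>
    rw [List.pairwise_cons] at h
    rw [List.nodup_cons] at hnd
    have hP : l.prod ≠ 0 := ih h.2 (fun y hy => by
      obtain ⟨y', h1, h2⟩ := h' y (List.mem_cons_of_mem _ hy)
      exact ⟨y', h1, fun z hz => h2 z (List.mem_cons_of_mem _ hz)⟩) hnd.2
    intro h0
    rw [List.prod_cons] at h0
    obtain ⟨x', h1, h2⟩ := h' x List.mem_cons_self
    have h3 : ∀ y ∈ l, x' * y = -(y * x') := fun y hy =>
      h2 y (List.mem_cons_of_mem _ hy) fun h4 => hnd.1 (h4 ▸ hy)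
    apply hP
    have h4 : l.prod = x * x' * l.prod + x' * (x * l.prod) := by
      rw [← mul_assoc, ← add_mul, h1, one_mul]
    rw [h4, h0, mul_zero, add_zero, mul_assoc]
    rcases anti_prod h3 with h5 | h5
    · rw [← h5, ← mul_assoc, h0, zero_mul]
    · have h6 : x' * l.prod = -(l.prod * x') := by rw [h5, neg_neg]
      rw [h6, mul_neg, ← mul_assoc, h0, zero_mul, neg_zero]

end list

/-- The canonical anticommutation relations, for operators indexed by a set with an involution. -/
def Car {I R : Type*} [Ring R] (bar : I → I) {n : ℕ} (w : I → Fin n → R) : Prop :=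
  (∀ σ i τ j, ¬(τ = bar σ ∧ i = j) → w σ i * w τ j = -(w τ j * w σ i)) ∧
    ∀ σ i, w σ i * w (bar σ) i + w (bar σ) i * w σ i = 1

namespace Car

variable {I R : Type*} [Ring R] [Algebra ℂ R] {bar : I → I} {n : ℕ}
  {w : I → Fin n → R} (hw : Car bar w) (hbar : ∀ σ, bar (bar σ) = σ) (hne : ∀ σ, bar σ ≠ σ)

include hw

theorem anti {σ τ : I} {i j : Fin n} (h : ¬(τ = bar σ ∧ i = j)) :
    w σ i * w τ j = -(w τ j * w σ i) := hw.1 σ i τ j h

theorem pair (σ : I) (i j : Fin n) :
    w σ i * w (bar σ) j + w (bar σ) j * w σ i = if i = j then 1 else 0 := by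
  by_cases hij : i = j
  · subst hij
    rw [if_pos rfl, hw.2]
  · rw [if_neg hij, hw.anti fun h => hij h.2, neg_add_cancel]

include hne in
theorem sq (σ : I) (i : Fin n) : w σ i * w σ i = 0 := by
  have h1 : w σ i * w σ i + w σ i * w σ i = 0 := by
    nth_rewrite 1 [hw.anti fun h => hne σ h.1.symm]
    exact neg_add_cancel _
  rw [← two_smul ℂ] at h1
  exact (smul_eq_zero_iff_right (two_ne_zero (α := ℂ))).1 h1

/-- The list of the creation operators of a set of colours. -/
noncomputable def lst (w : I → Fin n → R) (S : Finset I) : List R :=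
  (S ×ˢ (Finset.univ : Finset (Fin n))).toList.map fun p => w p.1 p.2

omit hw in
theorem mem_lst {S : Finset I} {x : R} : x ∈ lst w S ↔ ∃ σ ∈ S, ∃ i, w σ i = x := by
  unfold lst
  simp only [List.mem_map, Finset.mem_toList, Finset.mem_product, Finset.mem_univ, and_true,
    Prod.exists]
  constructor
  · rintro ⟨σ, i, h1, h2⟩
    exact ⟨σ, h1, i, h2⟩
  · rintro ⟨σ, h1, i, h2⟩
    exact ⟨σ, i, h1, h2⟩

theorem anti_lst {S : Finset I} {σ : I} (h : bar σ ∉ S) (i : Fin n) :
    ∀ y ∈ lst w S, w σ i * y = -(y * w σ i) := by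
  intro y hy
  obtain ⟨τ, hτ, j, rfl⟩ := mem_lst.1 hy
  exact hw.anti fun h1 => h (h1.1 ▸ hτ)

include hne in
theorem lst_left {S : Finset I} {σ : I} (h1 : σ ∈ S) (h : bar σ ∉ S) (i : Fin n) :
    w σ i * (lst w S).prod = 0 :=
  kill_left (mem_lst.2 ⟨σ, h1, i, rfl⟩) (hw.sq hne σ i) (hw.anti_lst h i)

include hne in
theorem lst_right {S : Finset I} {σ : I} (h1 : σ ∈ S) (h : bar σ ∉ S) (i : Fin n) :
    (lst w S).prod * w σ i = 0 :=
  kill_right (mem_lst.2 ⟨σ, h1, i, rfl⟩) (hw.sq hne σ i) (hw.anti_lst h i)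

include hne in
/-- The commutator with the generators of the Lie algebra, for the creation operators. -/
theorem comm_pos {S : Finset I} {σ : I} (h1 : σ ∈ S) (h : bar σ ∉ S) (i j : Fin n) :
    (w σ i * w (bar σ) j) * (lst w S).prod - (lst w S).prod * (w σ i * w (bar σ) j) =
      if i = j then (lst w S).prod else 0 := by
  have e1 := hw.pair σ i j
  have e2 := hw.lst_left hne h1 h i
  have e3 := hw.lst_right hne h1 h i
  have e4 : w σ i * w (bar σ) j * (lst w S).prod = (if i = j then 1 else 0) * (lst w S).prod := by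
    rw [← e1, add_mul, mul_assoc (w (bar σ) j), e2, mul_zero, add_zero]
  rw [e4, ← mul_assoc, e3, zero_mul, sub_zero]
  split_ifs
  · rw [one_mul]
  · rw [zero_mul]

include hne hbar in
theorem comm_neg {S : Finset I} {σ : I} (h1 : bar σ ∈ S) (h : σ ∉ S) (i j : Fin n) :
    (w σ i * w (bar σ) j) * (lst w S).prod - (lst w S).prod * (w σ i * w (bar σ) j) =
      -(if i = j then (lst w S).prod else 0) := by
  have e1 := hw.pair σ i j
  have e0 : bar (bar σ) ∉ S := by rwa [hbar]
  have e2 := hw.lst_left hne h1 e0 j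
  have e3 := hw.lst_right hne h1 e0 j
  have e4 : (lst w S).prod * (w σ i * w (bar σ) j) = (lst w S).prod * (if i = j then 1 else 0) := by
    rw [← e1, mul_add, ← mul_assoc _ (w (bar σ) j), e3, zero_mul, add_zero]
  rw [e4, mul_assoc, e2, mul_zero, zero_sub]
  split_ifs
  · rw [mul_one]
  · rw [mul_zero]

theorem comm_zero {S : Finset I} {σ : I} (h1 : bar σ ∉ S) (h : σ ∉ S) (i j : Fin n)
    (hbar : ∀ σ, bar (bar σ) = σ) :
    (w σ i * w (bar σ) j) * (lst w S).prod - (lst w S).prod * (w σ i * w (bar σ) j) = 0 := by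
  rw [sub_eq_zero]
  exact comm_prod (hw.anti_lst h1 i) (hw.anti_lst (by rwa [hbar]) j)

include hne in
theorem lst_ne_zero [Nontrivial R] {S : Finset I} (hS : ∀ σ ∈ S, bar σ ∉ S)
    (hbar : ∀ σ, bar (bar σ) = σ) : (lst w S).prod ≠ 0 := by
  have hinj : ∀ σ ∈ S, ∀ i, ∀ τ ∈ S, ∀ j, w σ i = w τ j → σ = τ ∧ i = j := by
    intro σ hσ i τ hτ j h
    by_contra hn
    have h1 := hw.pair σ i i
    rw [if_pos rfl, h] at h1
    have h2 : w τ j * w (bar σ) i = -(w (bar σ) i * w τ j) := by
      refine hw.anti ?_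
      rintro ⟨h3, h4⟩
      apply hn
      constructor
      · rw [← hbar σ, h3, hbar]
      · exact h4.symm
    rw [h2, neg_add_cancel] at h1
    exact zero_ne_one h1
  refine prod_ne_zero ?_ ?_ ?_
  · refine List.pairwise_of_forall_mem_list fun x hx y hy => ?_
    obtain ⟨σ, hσ, i, rfl⟩ := mem_lst.1 hx
    obtain ⟨τ, hτ, j, rfl⟩ := mem_lst.1 hy
    exact hw.anti fun h => hS σ hσ (h.1 ▸ hτ)
  · intro x hx
    obtain ⟨σ, hσ, i, rfl⟩ := mem_lst.1 hx
    refine ⟨w (bar σ) i, by rw [hw.pair, if_pos rfl], fun y hy hne' => ?_⟩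
    obtain ⟨τ, hτ, j, rfl⟩ := mem_lst.1 hy
    refine hw.anti fun h => hne' ?_
    rw [h.1, hbar, h.2]
  · unfold lst
    refine List.Nodup.map_on ?_ (Finset.nodup_toList _)
    rintro ⟨σ, i⟩ h1 ⟨τ, j⟩ h2 h
    rw [Finset.mem_toList, Finset.mem_product] at h1 h2
    obtain ⟨h3, h4⟩ := hinj σ h1.1 i τ h2.1 j h
    exact Prod.ext h3 h4

/-- The projections `w σ i * w (bar σ) i` commute. -/
theorem proj_comm (hbar : ∀ σ, bar (bar σ) = σ) (σ τ : I) (i j : Fin n) :
    (w σ i * w (bar σ) i) * (w τ j * w (bar τ) j) = (w τ j * w (bar τ) j) * (w σ i * w (bar σ) i) := by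
  by_cases hij : i = j
  · subst hij
    by_cases h1 : τ = σ
    · rw [h1]
    · by_cases h2 : τ = bar σ
      · subst h2
        rw [hbar]
        have h3 := hw.pair σ i i
        rw [if_pos rfl] at h3
        have h4 : w (bar σ) i * w σ i = 1 - w σ i * w (bar σ) i := by rw [← h3]; abel
        rw [h4, mul_sub, sub_mul, mul_one, one_mul]
      · have a1 : w (bar σ) i * w τ i = -(w τ i * w (bar σ) i) := hw.anti fun h => h1 (by
          rw [h.1, hbar])
        have a2 : w (bar σ) i * w (bar τ) i = -(w (bar τ) i * w (bar σ) i) := hw.anti fun h =>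
          h2 (by rw [← hbar τ, h.1, hbar])
        have a3 : w σ i * w τ i = -(w τ i * w σ i) := hw.anti fun h => h2 h.1
        have a4 : w σ i * w (bar τ) i = -(w (bar τ) i * w σ i) := hw.anti fun h => h1 (by
          rw [← hbar τ, h.1, hbar])
        exact swap4 a1 a2 a3 a4
  · have a1 : w (bar σ) i * w τ j = -(w τ j * w (bar σ) i) := hw.anti fun h => hij h.2
    have a2 : w (bar σ) i * w (bar τ) j = -(w (bar τ) j * w (bar σ) i) := hw.anti fun h => hij h.2
    have a3 : w σ i * w τ j = -(w τ j * w σ i) := hw.anti fun h => hij h.2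
    have a4 : w σ i * w (bar τ) j = -(w (bar τ) j * w σ i) := hw.anti fun h => hij h.2
    exact swap4 a1 a2 a3 a4
where
  swap4 {a b c d : R} (h1 : b * c = -(c * b)) (h2 : b * d = -(d * b)) (h3 : a * c = -(c * a))
      (h4 : a * d = -(d * a)) : a * b * (c * d) = c * d * (a * b) := by
    calc a * b * (c * d) = a * (b * c) * d := by noncomm_ring
      _ = -(a * c * (b * d)) := by rw [h1]; noncomm_ring
      _ = a * c * d * b := by rw [h2]; noncomm_ring
      _ = -(c * (a * d) * b) := by rw [h3]; noncomm_ring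
      _ = c * d * (a * b) := by rw [h4]; noncomm_ring

include hne in
theorem proj_idem (σ : I) (i : Fin n) :
    (w σ i * w (bar σ) i) * (w σ i * w (bar σ) i) = w σ i * w (bar σ) i := by
  have h3 := hw.pair σ i i
  rw [if_pos rfl] at h3
  have h4 : w (bar σ) i * w σ i = 1 - w σ i * w (bar σ) i := by rw [← h3]; abel
  calc (w σ i * w (bar σ) i) * (w σ i * w (bar σ) i)
      = w σ i * (w (bar σ) i * w σ i) * w (bar σ) i := by noncomm_ring
    _ = w σ i * w (bar σ) i - (w σ i * w σ i) * (w (bar σ) i * w (bar σ) i) := by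
        rw [h4]; noncomm_ring
    _ = w σ i * w (bar σ) i := by rw [hw.sq hne, zero_mul, sub_zero]

end Car

/-- Common eigenvectors for commuting projections. -/
theorem exists_common {K U J : Type*} [Field K] [AddCommGroup U] [Module K U]
    (P : J → Module.End K U) (s : Finset J) (hP : ∀ j, P j * P j = P j)
    (hcomm : ∀ i j, P i * P j = P j * P i) {X Y : Module.End K U}
    (hX : ∀ j, P j * X = X * P j) (hY : ∀ j, P j * Y = Y * P j) {v : U} (hv : v ≠ 0) {x y : K}
    (hx : X v = x • v) (hy : Y v = y • v) :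
    ∃ v' : U, v' ≠ 0 ∧ X v' = x • v' ∧ Y v' = y • v' ∧
      ∀ j ∈ s, P j v' = v' ∨ P j v' = 0 := by
  classical
  induction s using Finset.induction_on with
  | empty => exact ⟨v, hv, hx, hy, fun j hj => absurd hj (Finset.notMem_empty j)⟩
  | insert j s _ ih =>
    obtain ⟨v', h0, h1, h2, h3⟩ := ih
    by_cases h4 : P j v' = 0
    · refine ⟨v', h0, h1, h2, fun i hi => ?_⟩
      rcases Finset.mem_insert.1 hi with rfl | hi
      · exact Or.inr h4
      · exact h3 i hi
    · refine ⟨P j v', h4, ?_, ?_, fun i hi => ?_⟩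
      · rw [← Module.End.mul_apply, ← hX, Module.End.mul_apply, h1, map_smul]
      · rw [← Module.End.mul_apply, ← hY, Module.End.mul_apply, h2, map_smul]
      · rcases Finset.mem_insert.1 hi with rfl | hi
        · left
          rw [← Module.End.mul_apply, hP]
        · rw [← Module.End.mul_apply, hcomm, Module.End.mul_apply]
          rcases h3 i hi with h5 | h5
          · left; rw [h5]
          · right; rw [h5, map_zero]

end Pool.Agent.L0h12.CM
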