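import Pool.Agent.R918.AV
import Pool.Agent.R912.U15

set_option autoImplicit false
set_option linter.unusedSectionVars false

/-!
# De Rham-Betti classes and Hodge classes on direct factors of powers
-/

open Module TensorProduct

noncomputable section

namespace Pool.Agent.L0h12.CM

open Pool.Agent.Y102 Pool.Agent.W516.DR Pool.Agent.H204R3.GP Pool.Agent.R912

variable {g g' : ℕ} {A : AbVar g} {B : AbVar g'} {r : ℕ}

theorem compat_comp (p : Fin r → (A.H1 →ₗ[ℚ] B.H1)) (hp : ∀ l, IsHom A B (p l)) {w : ℤ}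
    {c : (Fin r → Fin g' ⊕ Fin g') → QBar} {ξ : MultilinearMap ℚ (fun _ : Fin r => B.H1) ℚ}
    (h : Compat B.dR tau w c ξ) : ∃ c', Compat A.dR tau w c' (ξ.compLinearMap p) := by
  classical
  choose e he using fun l => (hp l).algebraic
  refine ⟨fun J' => ∑ J, c J * ∏ l, e l (J l) (J' l), fun v => ?_⟩
  have h1 : tau ^ w * ((ξ.compLinearMap p) v : ℂ) =
      ∑ J, algebraMap QBar ℂ (c J) * ∏ l, B.dR (J l) (p l (v l)) := h fun l => p l (v l)
  rw [h1]
  have h2 : ∀ J : Fin r → Fin g' ⊕ Fin g', ∏ l, B.dR (J l) (p l (v l)) =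
      ∑ J' : Fin r → Fin g ⊕ Fin g,
        (∏ l, algebraMap QBar ℂ (e l (J l) (J' l))) * ∏ l, A.dR (J' l) (v l) := by
    intro J
    rw [Finset.prod_congr rfl fun l _ => he l (J l) (v l), Finset.prod_univ_sum,
      Fintype.piFinset_univ]
    exact Finset.sum_congr rfl fun J' _ => Finset.prod_mul_distrib
  have h3 : ∀ J : Fin r → Fin g' ⊕ Fin g',
      algebraMap QBar ℂ (c J) * ∏ l, B.dR (J l) (p l (v l)) =
      ∑ J' : Fin r → Fin g ⊕ Fin g,
        algebraMap QBar ℂ (c J * ∏ l, e l (J l) (J' l)) * ∏ l, A.dR (J' l) (v l) := by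
    intro J
    rw [h2, Finset.mul_sum]
    refine Finset.sum_congr rfl fun J' _ => ?_
    rw [map_mul, map_prod, mul_assoc]
  rw [Finset.sum_congr rfl fun J _ => h3 J, Finset.sum_comm]
  refine Finset.sum_congr rfl fun J' _ => ?_
  rw [map_sum, Finset.sum_mul]

theorem hodge_comp' (f : Fin r → (B.H1 →ₗ[ℚ] A.H1)) (hf : ∀ l, IsHom B A (f l))
    {ψ : MultilinearMap ℚ (fun _ : Fin r => A.H1) ℚ}
    (hψ : IsHodgeTensor (A.per : A.H1 →+ (Fin g → ℂ)) ψ) :
    IsHodgeTensor (B.per : B.H1 →+ (Fin g' → ℂ)) (ψ.compLinearMap f) := by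
  obtain ⟨Ψ, h1, h2⟩ := hψ
  choose F hF using fun l => (hf l).tangent
  refine ⟨Ψ.compLinearMap fun l => (F l).restrictScalars ℝ, fun v => ?_, fun z hz u => ?_⟩
  · change Ψ (fun l => F l (B.per (v l))) = ψ (fun l => f l (v l))
    rw [← h1]
    congr 1
    funext l
    exact hF l (v l)
  · change Ψ (fun l => F l (z • u l)) = Ψ (fun l => F l (u l))
    rw [← h2 z hz fun l => F l (u l)]
    congr 1
    funext l
    exact map_smul (F l) z (u l)

theorem hodge_sum {κ W T ι : Type} [AddCommGroup W] [Module ℚ W] [AddCommGroup T] [Module ℂ T]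
    [Module ℝ T] {per : W →+ T} (s : Finset ι)
    (ψ : ι → MultilinearMap ℚ (fun _ : κ => W) ℚ) (h : ∀ i ∈ s, IsHodgeTensor per (ψ i)) :
    IsHodgeTensor per (∑ i ∈ s, ψ i) := by
  classical
  induction s using Finset.induction_on with
  | empty =>
    refine ⟨0, fun v => ?_, fun z _ u => rfl⟩
    rw [Finset.sum_empty, MultilinearMap.zero_apply, MultilinearMap.zero_apply, Rat.cast_zero]
  | insert i s hi ih =>
    obtain ⟨Ψ, h1, h2⟩ := ih fun j hj => h j (Finset.mem_insert_of_mem hj)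
    obtain ⟨Ψ', h1', h2'⟩ := h i (Finset.mem_insert_self i s)
    refine ⟨Ψ' + Ψ, fun v => ?_, fun z hz u => ?_⟩
    · rw [MultilinearMap.add_apply, h1, h1', Finset.sum_insert hi, MultilinearMap.add_apply,
        Rat.cast_add]
    · rw [MultilinearMap.add_apply, MultilinearMap.add_apply, h2 z hz, h2' z hz]

/-- Transfer to direct factors of powers. -/
theorem hodge_power {N : ℕ} {f : Fin N → (B.H1 →ₗ[ℚ] A.H1)} {p : Fin N → (A.H1 →ₗ[ℚ] B.H1)}
    (hf : ∀ i, IsHom B A (f i)) (hp : ∀ i, IsHom A B (p i)) (hpf : ∀ v, ∑ i, p i (f i v) = v)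
    {w : ℤ} (hA : ∀ (c : (Fin r → Fin g ⊕ Fin g) → QBar)
      (ψ : MultilinearMap ℚ (fun _ : Fin r => A.H1) ℚ),
      Compat A.dR tau w c ψ → IsHodgeTensor (A.per : A.H1 →+ (Fin g → ℂ)) ψ)
    {c : (Fin r → Fin g' ⊕ Fin g') → QBar} {ξ : MultilinearMap ℚ (fun _ : Fin r => B.H1) ℚ}
    (h : Compat B.dR tau w c ξ) : IsHodgeTensor (B.per : B.H1 →+ (Fin g' → ℂ)) ξ := by
  classical
  have h1 : ξ = ∑ I : Fin r → Fin N, (ξ.compLinearMap fun l => p (I l)).compLinearMap
      fun l => f (I l) := by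
    refine MultilinearMap.ext fun v => ?_
    rw [MultilinearMap.sum_apply]
    have h2 : ξ v = ξ fun l => ∑ i, p i (f i (v l)) := by
      congr 1
      funext l
      exact (hpf (v l)).symm
    rw [h2, MultilinearMap.map_sum]
    rfl
  rw [h1]
  refine hodge_sum _ _ fun I _ => ?_
  obtain ⟨c', hc'⟩ := compat_comp (fun l => p (I l)) (fun l => hp (I l)) h
  exact hodge_comp' _ (fun l => hf (I l)) (hA c' _ hc')

end Pool.Agent.L0h12.CM

end
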