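import Mathlib
import Pool.Agent.W537.PC.Small
import Pool.Agent.H977R3.CM.Aut

set_option autoImplicit false
set_option linter.unusedSectionVars false

/-!
# CM fields: spaces of odd functions on the complex embeddings which are stable under the
automorphisms of the complex numbers
-/

namespace Pool.Agent.L0h12.CM

open NumberField Module

noncomputable section

section emb

variable {E : Type} [Field E]

/-- The composition of a complex embedding and an automorphism of the complex numbers. -/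
def act (s : ℂ ≃+* ℂ) (σ : E →+* ℂ) : E →+* ℂ := (s : ℂ →+* ℂ).comp σ

theorem act_apply (s : ℂ ≃+* ℂ) (σ : E →+* ℂ) (x : E) : act s σ x = s (σ x) := rfl

theorem act_mul (s t : ℂ ≃+* ℂ) (σ : E →+* ℂ) : act (s * t) σ = act s (act t σ) := rfl

theorem act_one (σ : E →+* ℂ) : act 1 σ = σ := rfl

theorem act_inv_act (s : ℂ ≃+* ℂ) (σ : E →+* ℂ) : act s⁻¹ (act s σ) = σ := by
  rw [← act_mul, inv_mul_cancel, act_one]

theorem act_act_inv (s : ℂ ≃+* ℂ) (σ : E →+* ℂ) : act s (act s⁻¹ σ) = σ := by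
  rw [← act_mul, mul_inv_cancel, act_one]

/-- The complex conjugate of a complex embedding. -/
abbrev bar (σ : E →+* ℂ) : E →+* ℂ := ComplexEmbedding.conjugate σ

theorem bar_apply (σ : E →+* ℂ) (x : E) : bar σ x = (starRingEnd ℂ) (σ x) := rfl

theorem bar_bar (σ : E →+* ℂ) : bar (bar σ) = σ := star_star σ

/-- The automorphisms of the complex numbers act transitively on the embeddings of a number
field. -/
theorem exists_act [NumberField E] (σ τ : E →+* ℂ) : ∃ s : ℂ ≃+* ℂ, act s σ = τ := by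
  let Q : IntermediateField ℚ ℂ := algebraicClosure ℚ ℂ
  have hQ : IsAlgClosure ℚ Q := algebraicClosure.isAlgClosure ℚ ℂ
  have hQ' : IsAlgClosed Q := hQ.isAlgClosed
  have hmem : ∀ (ρ : E →+* ℂ) (x : E), ρ x ∈ Q := fun ρ x => by
    have h1 : IsAlgebraic ℚ x := Algebra.IsAlgebraic.isAlgebraic x
    exact (mem_algebraicClosure_iff).2 (h1.algHom (ρ.toRatAlgHom))
  let emb : (E →+* ℂ) → (E →+* Q) := fun ρ => ρ.codRestrict Q (hmem ρ)
  let _ : Algebra E Q := (emb σ).toAlgebra
  have _ : IsScalarTower ℚ E Q := IsScalarTower.of_algebraMap_eq fun x => by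
    rw [eq_ratCast, eq_ratCast]
    exact (map_ratCast (emb σ) x).symm
  let f : E →ₐ[ℚ] Q := (emb τ).toRatAlgHom
  obtain ⟨φ, hφ⟩ := IntermediateField.exists_algHom_of_splits' (E := Q) f (fun s =>
    ⟨(Algebra.IsIntegral.isIntegral (R := ℚ) s).tower_top, IsAlgClosed.splits _⟩)
  have hb : Function.Bijective φ := Algebra.IsAlgebraic.algHom_bijective φ
  obtain ⟨s, hs⟩ := Pool.Agent.H977R3.CM.exists_aut (algebraMap Q ℂ)
    (AlgEquiv.ofBijective φ hb).toRingEquiv
  refine ⟨s, ?_⟩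
  ext x
  have h1 := hs (emb σ x)
  have h2 : φ (emb σ x) = emb τ x := DFunLike.congr_fun hφ x
  have h3 : (AlgEquiv.ofBijective φ hb).toRingEquiv (emb σ x) = emb τ x := h2
  rw [h3] at h1
  exact h1

end emb

/-- Every nonzero space of odd rational functions on the set of the complex embeddings of `E` which
is stable under all automorphisms of `ℂ` contains a nonzero function with values in `{0, 1, -1}`. -/
def SignRich (E : Type) [Field E] : Prop :=
  ∀ V : Submodule ℚ ((E →+* ℂ) → ℚ), V ≠ ⊥ →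
    (∀ c ∈ V, ∀ σ, c (ComplexEmbedding.conjugate σ) = -c σ) →
    (∀ (s : ℂ ≃+* ℂ), ∀ c ∈ V, (fun σ => c ((s : ℂ →+* ℂ).comp σ)) ∈ V) →
    ∃ c ∈ V, c ≠ 0 ∧ ∀ σ, c σ = 0 ∨ c σ = 1 ∨ c σ = -1

/-- There is a group of automorphisms of `ℂ` which acts on the complex embeddings of `E` through a
commutative group, and transitively up to complex conjugation. -/
def AbelianTransitive (E : Type) [Field E] : Prop :=
  ∃ S : Subgroup (ℂ ≃+* ℂ),
    (∀ s ∈ S, ∀ t ∈ S, ∀ σ : E →+* ℂ,
      (s : ℂ →+* ℂ).comp ((t : ℂ →+* ℂ).comp σ) = (t : ℂ →+* ℂ).comp ((s : ℂ →+* ℂ).comp σ)) ∧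
    ∀ σ τ : E →+* ℂ, ∃ s ∈ S,
      τ = (s : ℂ →+* ℂ).comp σ ∨ τ = ComplexEmbedding.conjugate ((s : ℂ →+* ℂ).comp σ)

section CM

variable {E : Type} [Field E] [NumberField E] [IsCMField E]

theorem act_bar (s : ℂ ≃+* ℂ) (σ : E →+* ℂ) : act s (bar σ) = bar (act s σ) := by
  ext x
  rw [act_apply, bar_apply, bar_apply, act_apply]
  have h1 := IsCMField.complexEmbedding_complexConj E σ x
  have h2 := IsCMField.complexEmbedding_complexConj E (act s σ) x
  rw [← h1]
  exact h2

theorem bar_ne (σ : E →+* ℂ) : bar σ ≠ σ := IsTotallyComplex.complexEmbedding_not_isReal σ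

/-- The permutation of the embeddings given by an automorphism. -/
def prm (s : ℂ ≃+* ℂ) : Equiv.Perm (E →+* ℂ) where
  toFun := act s
  invFun := act s⁻¹
  left_inv := act_inv_act s
  right_inv := act_act_inv s

/-- The complex conjugation as a permutation. -/
def cperm : Equiv.Perm (E →+* ℂ) where
  toFun := bar
  invFun := bar
  left_inv := bar_bar
  right_inv := bar_bar

/-- The group generated by a group of automorphisms and the complex conjugation. -/
def grp (S : Subgroup (ℂ ≃+* ℂ)) : Subgroup (Equiv.Perm (E →+* ℂ)) where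
  carrier := {g | ∃ s ∈ S, (∀ σ, g σ = act s σ) ∨ (∀ σ, g σ = bar (act s σ))}
  one_mem' := ⟨1, S.one_mem, Or.inl fun σ => rfl⟩
  mul_mem' := by
    rintro g h ⟨s, hs, hg⟩ ⟨t, ht, hh⟩
    refine ⟨s * t, S.mul_mem hs ht, ?_⟩
    rcases hg with hg | hg <;> rcases hh with hh | hh
    · left; intro σ
      rw [Equiv.Perm.mul_apply, hh, hg, act_mul]
    · right; intro σ
      rw [Equiv.Perm.mul_apply, hh, hg, act_mul, act_bar]
    · right; intro σ
      rw [Equiv.Perm.mul_apply, hh, hg, act_mul]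
    · left; intro σ
      rw [Equiv.Perm.mul_apply, hh, hg, act_mul, act_bar, bar_bar]
  inv_mem' := by
    rintro g ⟨s, hs, hg⟩
    refine ⟨s⁻¹, S.inv_mem hs, ?_⟩
    rcases hg with hg | hg
    · left; intro σ
      rw [Equiv.Perm.inv_eq_iff_eq, hg, act_act_inv]
    · right; intro σ
      rw [Equiv.Perm.inv_eq_iff_eq, hg, act_bar, act_act_inv, bar_bar]

theorem signRich_of_abelianTransitive (h : AbelianTransitive E) : SignRich E := by
  classical
  obtain ⟨S, hcomm, htr⟩ := h
  intro V hV hodd hst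
  obtain ⟨c, hcV, hc0⟩ := (Submodule.ne_bot_iff V).1 hV
  let G := grp (E := E) S
  have hGcomm : ∀ a b : G, a * b = b * a := by
    rintro ⟨a, s, hs, ha⟩ ⟨b, t, ht, hb⟩
    apply Subtype.ext
    ext σ : 1
    change a (b σ) = b (a σ)
    have h1 : act s (act t σ) = act t (act s σ) := hcomm s hs t ht σ
    rcases ha with ha | ha <;> rcases hb with hb | hb
    · rw [hb, ha, ha, hb, h1]
    · rw [hb, ha, ha, hb, act_bar, h1]
    · rw [hb, ha, ha, hb, act_bar, h1]
    · rw [hb, ha, ha, hb, act_bar, act_bar, h1]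
  let _ : CommGroup G := { (inferInstance : Group G) with mul_comm := hGcomm }
  have hbarG : cperm ∈ G := ⟨1, S.one_mem, Or.inr fun σ => rfl⟩
  obtain ⟨σ₀⟩ : Nonempty (E →+* ℂ) := inferInstance
  have htrG : ∀ τ, ∃ g : G, g.1 σ₀ = τ := by
    intro τ
    obtain ⟨s, hs, h1 | h1⟩ := htr σ₀ τ
    · exact ⟨⟨prm s, s, hs, Or.inl fun σ => rfl⟩, h1.symm⟩
    · exact ⟨⟨cperm * prm s, s, hs, Or.inr fun σ => rfl⟩, h1.symm⟩
  have hVG : ∀ g : G, ∀ c ∈ V, (fun σ => c (g.1 σ)) ∈ V := by
    rintro ⟨g, s, hs, hg⟩ c hc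
    rcases hg with hg | hg
    · have h1 : (fun σ => c (g σ)) = fun σ => c (act s σ) := funext fun σ => by rw [hg]
      change (fun σ => c (g σ)) ∈ V
      rw [h1]
      exact hst s c hc
    · have h1 : (fun σ => c (g σ)) = -(fun σ => c (act s σ)) := funext fun σ => by
        rw [hg, Pi.neg_apply]
        exact hodd c hc _
      change (fun σ => c (g σ)) ∈ V
      rw [h1]
      exact V.neg_mem (hst s c hc)
  -- integral values
  let N : ℕ := ∏ σ, (c σ).den
  have hN : 0 < N := Finset.prod_pos fun σ _ => (c σ).den_pos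
  have hn : ∀ σ, ∃ k : ℤ, (k : ℚ) = N * c σ := by
    intro σ
    obtain ⟨k, hk⟩ := Finset.dvd_prod_of_mem (fun σ => (c σ).den) (Finset.mem_univ σ)
    refine ⟨k * (c σ).num, ?_⟩
    have h3 : (N : ℚ) = (c σ).den * k := by
      simp only [N]
      rw [hk]
      push_cast
      rfl
    have h4 := Rat.mul_den_eq_num (c σ)
    rw [h3]
    push_cast
    linear_combination -(k : ℚ) * h4
  choose B hB using hn
  have hN0 : (N : ℚ) ≠ 0 := by exact_mod_cast hN.ne'
  obtain ⟨n, M, h, hM, hh0, hval, -, hrel⟩ := Pool.Agent.W537.PC.exists_small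
    (G := G) ⟨cperm, hbarG⟩ (fun g => B (g.1 σ₀)) (by
      intro g
      have h1 : ((B (bar (g.1 σ₀)) : ℤ) : ℚ) = ((-B (g.1 σ₀) : ℤ) : ℚ) := by
        push_cast
        rw [hB, hB, hodd c hcV]
        ring
      exact_mod_cast h1) (by
      intro h0
      apply hc0
      funext τ
      obtain ⟨g, rfl⟩ := htrG τ
      have h1 := congrFun h0 g
      have h2 := hB (g.1 σ₀)
      simp only [Pi.zero_apply] at h1
      rw [h1, Int.cast_zero] at h2
      rw [Pi.zero_apply]
      exact ((mul_eq_zero.1 h2.symm).resolve_left hN0))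
  have hM0 : (M : ℚ) ≠ 0 := by exact_mod_cast hM.ne'
  let d : (E →+* ℂ) → ℚ := ∑ u : G, ((n u : ℚ) * N / M) • (fun σ => c (u.1 σ))
  have hd : ∀ g : G, d (g.1 σ₀) = h g := by
    intro g
    have h1 : ((∑ u, n u * B ((u * g).1 σ₀) : ℤ) : ℚ) = ((M * h g : ℤ) : ℚ) := by
      exact_mod_cast hrel g
    push_cast at h1
    have h2 : d (g.1 σ₀) = (∑ u : G, (n u : ℚ) * (B ((u * g).1 σ₀) : ℚ)) / M := by
      simp only [d]
      rw [Finset.sum_apply, Finset.sum_div]
      refine Finset.sum_congr rfl fun u _ => ?_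
      rw [Pi.smul_apply, smul_eq_mul, hB]
      change _ = (n u : ℚ) * (N * c (u.1 (g.1 σ₀))) / M
      ring
    have h3 : (∑ u : G, (n u : ℚ) * (B ((u * g).1 σ₀) : ℚ)) = M * h g := h1
    rw [h2, h3]
    field_simp
  refine ⟨d, ?_, ?_, ?_⟩
  · exact Submodule.sum_mem _ fun u _ => V.smul_mem _ (hVG u c hcV)
  · intro h0
    apply hh0
    funext g
    have h1 := hd g
    rw [h0, Pi.zero_apply] at h1
    exact_mod_cast h1.symm
  · intro σ
    obtain ⟨g, rfl⟩ := htrG σ
    rw [hd]
    rcases hval g with h1 | h1 | h1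
    · left; rw [h1, Int.cast_zero]
    · right; left; rw [h1, Int.cast_one]
    · right; right; rw [h1]; norm_num

theorem abelianTransitive_of_abelian [IsAbelianGalois ℚ E] : AbelianTransitive E := by
  refine ⟨⊤, fun s _ t _ σ => ?_, fun σ τ => ?_⟩
  · obtain ⟨g, hg⟩ := Pool.Agent.H977R3.CM.exists_gal σ s
    obtain ⟨g', hg'⟩ := Pool.Agent.H977R3.CM.exists_gal σ t
    ext x
    change s (t (σ x)) = t (s (σ x))
    rw [hg', hg, hg, hg']
    have h1 : g * g' = g' * g := mul_comm' g g'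
    exact congrArg σ (DFunLike.congr_fun h1 x)
  · obtain ⟨s, hs⟩ := exists_act σ τ
    exact ⟨s, Subgroup.mem_top s, Or.inl hs.symm⟩

end CM

end

end Pool.Agent.L0h12.CM
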