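import Pool.Agent.R918.AV
import Pool.Agent.R912.U15
import Pool.Agent.L0h12.CM.Rich
import Pool.Agent.L0h12.CM.Car

set_option autoImplicit false
set_option linter.unusedSectionVars false
set_option linter.unusedVariables false
set_option linter.unusedTactic false

/-!
# Abelian varieties of unitary type with a centre given by a CM field
-/

open Module TensorProduct NumberField

noncomputable section

namespace Pool.Agent.L0h12.CM

open Pool.Agent.Y102 Pool.Agent.W516.DR Pool.Agent.H204R3.GP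

section rho

variable {E : Type} [Field E] [NumberField E] {n : ℕ} {R : Type*} [Ring R] [Algebra ℂ R]

/-- The element of the Lie algebra given by an element of the field. -/
def rho (w : (E →+* ℂ) → Fin n → R) (x : E) : R :=
  (2⁻¹ : ℂ) • ∑ σ : E →+* ℂ, ∑ i, σ x • (w σ i * w (bar σ) i)

/-- The sum of the general linear Lie algebras of the colours. -/
def gls (w : (E →+* ℂ) → Fin n → R) : Submodule ℂ R :=
  Submodule.span ℂ {Y | ∃ σ i j, Y = w σ i * w (bar σ) j - w (bar σ) j * w σ i}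

/-- one for the elements of `S`, minus one for their conjugates -/
def sgn (S : Finset (E →+* ℂ)) (σ : E →+* ℂ) : ℂ := by
  classical exact (if σ ∈ S then 1 else 0) - (if bar σ ∈ S then 1 else 0)

variable [IsCMField E] {w : (E →+* ℂ) → Fin n → R}

theorem comm_gen (hw : Car bar w) {S : Finset (E →+* ℂ)}
    (hS : ∀ σ ∈ S, bar σ ∉ S) (σ : E →+* ℂ) (i j : Fin n) :
    (w σ i * w (bar σ) j) * (Car.lst w S).prod - (Car.lst w S).prod * (w σ i * w (bar σ) j) =
      (if i = j then sgn S σ else 0) • (Car.lst w S).prod := by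
  have hb : ∀ σ : E →+* ℂ, bar (bar σ) = σ := bar_bar
  by_cases h1 : σ ∈ S
  · have h2 := hS σ h1
    rw [hw.comm_pos bar_ne h1 h2]
    unfold sgn
    rw [if_pos h1, if_neg h2, sub_zero]
    split_ifs
    · rw [one_smul]
    · rw [zero_smul]
  · by_cases h2 : bar σ ∈ S
    · rw [hw.comm_neg hb bar_ne h2 h1]
      unfold sgn
      rw [if_neg h1, if_pos h2, zero_sub]
      split_ifs
      · rw [neg_smul, one_smul]
      · rw [zero_smul, neg_zero]
    · rw [hw.comm_zero h2 h1 i j hb]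
      unfold sgn
      rw [if_neg h1, if_neg h2, sub_zero]
      split_ifs
      · rw [zero_smul]
      · rw [zero_smul]

theorem comm_rho (hw : Car bar w) {S : Finset (E →+* ℂ)}
    (hS : ∀ σ ∈ S, bar σ ∉ S) (x : E) :
    rho w x * (Car.lst w S).prod - (Car.lst w S).prod * rho w x =
      (2⁻¹ * (n : ℂ) * ∑ σ, sgn S σ * σ x) • (Car.lst w S).prod := by
  unfold rho
  rw [smul_mul_assoc, mul_smul_comm, ← smul_sub, Finset.sum_mul, Finset.mul_sum,
    ← Finset.sum_sub_distrib]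
  have h1 : ∀ σ : E →+* ℂ, (∑ i, σ x • (w σ i * w (bar σ) i)) * (Car.lst w S).prod -
      (Car.lst w S).prod * (∑ i, σ x • (w σ i * w (bar σ) i)) =
      ((n : ℂ) * (sgn S σ * σ x)) • (Car.lst w S).prod := by
    intro σ
    rw [Finset.sum_mul, Finset.mul_sum, ← Finset.sum_sub_distrib]
    have h2 : ∀ i : Fin n, σ x • (w σ i * w (bar σ) i) * (Car.lst w S).prod -
        (Car.lst w S).prod * (σ x • (w σ i * w (bar σ) i)) =
        (sgn S σ * σ x) • (Car.lst w S).prod := by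
      intro i
      rw [smul_mul_assoc, mul_smul_comm, ← smul_sub, comm_gen hw hS, if_pos rfl, smul_smul,
        mul_comm]
    rw [Finset.sum_congr rfl fun i _ => h2 i, Finset.sum_const, Finset.card_univ,
      Fintype.card_fin, ← Nat.cast_smul_eq_nsmul ℂ, smul_smul]
  rw [Finset.sum_congr rfl fun σ _ => h1 σ, ← Finset.sum_smul, smul_smul, ← Finset.mul_sum,
    mul_assoc]

theorem comm_gls (hw : Car bar w) {S : Finset (E →+* ℂ)}
    (hS : ∀ σ ∈ S, bar σ ∉ S) {Y : R} (hY : Y ∈ gls w) :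
    ∃ μ : ℂ, Y * (Car.lst w S).prod - (Car.lst w S).prod * Y = μ • (Car.lst w S).prod := by
  unfold gls at hY
  induction hY using Submodule.span_induction with
  | mem Y hY =>
    obtain ⟨σ, i, j, rfl⟩ := hY
    have h1 := comm_gen hw hS σ i j
    have h2 := comm_gen hw hS (bar σ) j i
    rw [bar_bar] at h2
    refine ⟨(if i = j then sgn S σ else 0) - (if j = i then sgn S (bar σ) else 0), ?_⟩
    rw [sub_smul, ← h1, ← h2]
    noncomm_ring
  | zero => exact ⟨0, by rw [zero_mul, mul_zero, sub_zero, zero_smul]⟩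
  | add Y Z _ _ hY hZ =>
    obtain ⟨μ, h1⟩ := hY
    obtain ⟨ν, h2⟩ := hZ
    refine ⟨μ + ν, ?_⟩
    rw [add_smul, ← h1, ← h2]
    noncomm_ring
  | smul c Y _ hY =>
    obtain ⟨μ, h1⟩ := hY
    refine ⟨c * μ, ?_⟩
    rw [mul_smul, ← h1, smul_mul_assoc, mul_smul_comm, smul_sub]

theorem comm_br {T Y Z : R} {μ ν : ℂ} (h1 : Y * T - T * Y = μ • T) (h2 : Z * T - T * Z = ν • T) :
    T * (Y * Z - Z * Y) = (Y * Z - Z * Y) * T := by
  have e1 : Y * T = T * Y + μ • T := by rw [← h1]; abel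
  have e2 : Z * T = T * Z + ν • T := by rw [← h2]; abel
  symm
  calc (Y * Z - Z * Y) * T = Y * (Z * T) - Z * (Y * T) := by noncomm_ring
    _ = Y * (T * Z + ν • T) - Z * (T * Y + μ • T) := by rw [e1, e2]
    _ = Y * T * Z + ν • (Y * T) - (Z * T * Y + μ • (Z * T)) := by
        rw [mul_add, mul_add, mul_smul_comm, mul_smul_comm, mul_assoc, mul_assoc]
    _ = (T * Y + μ • T) * Z + ν • (T * Y + μ • T) -
        ((T * Z + ν • T) * Y + μ • (T * Z + ν • T)) := by rw [e1, e2]
    _ = T * (Y * Z - Z * Y) := by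
        rw [add_mul, add_mul, smul_mul_assoc, smul_mul_assoc, smul_add, smul_add, smul_smul,
          smul_smul, mul_comm μ ν, mul_sub, mul_assoc, mul_assoc]
        abel

end rho

section av

variable {E : Type} [Field E] [NumberField E] [IsCMField E] {n g : ℕ} {A : AbVar g}

/-- The Lie algebra is of unitary type, with centre given by the field. -/
structure IsUnit (A : AbVar g) (w : (E →+* ℂ) → Fin n → Module.End ℂ (ℂ ⊗[ℚ] A.H1)) : Prop where
  car : Car bar w
  lie : cx A.NA = gls w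
  cen : ∀ X ∈ A.CN, ∃ x : E, IsCMField.complexConj E x = -x ∧ X.baseChange ℂ = rho w x
  all : ∀ x : E, IsCMField.complexConj E x = -x → ∃ X ∈ A.CN, X.baseChange ℂ = rho w x

theorem comm_of_gen {X : Module.End ℚ A.H1}
    (hgen : ∀ T : Module.End ℚ A.H1,
      (∀ Y ∈ A.NA, ∀ Z ∈ A.NA, T * (Y * Z - Z * Y) = (Y * Z - Z * Y) * T) → T * X = X * T →
      ∀ Z ∈ A.CN, T * Z = Z * T) (T : Module.End ℂ (ℂ ⊗[ℚ] A.H1))
    (h1 : ∀ Y ∈ A.NA, ∀ Z ∈ A.NA, T * (Y * Z - Z * Y).baseChange ℂ =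
      (Y * Z - Z * Y).baseChange ℂ * T) (h2 : T * X.baseChange ℂ = X.baseChange ℂ * T) :
    ∀ Z ∈ A.CN, T * Z.baseChange ℂ = Z.baseChange ℂ * T := by
  intro Z hZ
  refine (comm_iff Z T).1 fun lam => ?_
  refine hgen _ (fun Y hY Z' hZ' => ?_) ((comm_iff X T).2 h2 lam) Z hZ
  exact (comm_iff _ T).2 (h1 Y hY Z' hZ') lam

variable {w : (E →+* ℂ) → Fin n → Module.End ℂ (ℂ ⊗[ℚ] A.H1)}

theorem sum_bar (F : (E →+* ℂ) → ℂ) : ∑ σ, F (bar σ) = ∑ σ, F σ :=
  Fintype.sum_equiv (cperm : Equiv.Perm (E →+* ℂ)) _ _ fun σ => rfl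

theorem bar_skew {x : E} (hx : IsCMField.complexConj E x = -x) (σ : E →+* ℂ) :
    bar σ x = -σ x := by
  rw [bar_apply, ← IsCMField.complexEmbedding_complexConj, hx, map_neg]

/-- The generating elements of the centre satisfy no small relations. -/
theorem no_small [Nontrivial (Module.End ℂ (ℂ ⊗[ℚ] A.H1))] (hn : n ≠ 0) (hA : IsUnit A w)
    {x : E} (hx : IsCMField.complexConj E x = -x) {X : Module.End ℚ A.H1}
    (hX : X.baseChange ℂ = rho w x)
    (hgen : ∀ T : Module.End ℚ A.H1,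
      (∀ Y ∈ A.NA, ∀ Z ∈ A.NA, T * (Y * Z - Z * Y) = (Y * Z - Z * Y) * T) → T * X = X * T →
      ∀ Z ∈ A.CN, T * Z = Z * T) (h : (E →+* ℂ) → ℚ) (hodd : ∀ σ, h (bar σ) = -h σ)
    (hval : ∀ σ, h σ = 0 ∨ h σ = 1 ∨ h σ = -1) (hrel : ∑ σ, (h σ : ℂ) * σ x = 0) : h = 0 := by
  classical
  have hcar : Car bar w := hA.car
  let S : Finset (E →+* ℂ) := Finset.univ.filter fun σ => h σ = 1
  have hmem : ∀ σ, σ ∈ S ↔ h σ = 1 := fun σ => by
    simp only [S, Finset.mem_filter, Finset.mem_univ, true_and]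
  have hS : ∀ σ ∈ S, bar σ ∉ S := by
    intro σ h1 h2
    rw [hmem] at h1 h2
    rw [hodd, h1] at h2
    norm_num at h2
  have hsgn : ∀ σ, sgn S σ = (h σ : ℂ) := by
    intro σ
    unfold sgn
    rcases hval σ with h1 | h1 | h1
    · rw [if_neg, if_neg, h1, sub_zero, Rat.cast_zero]
      · rw [hmem, hodd, h1]; norm_num
      · rw [hmem, h1]; norm_num
    · rw [if_pos ((hmem σ).2 h1), if_neg (hS σ ((hmem σ).2 h1)), h1, sub_zero, Rat.cast_one]
    · rw [if_neg, if_pos, h1, zero_sub, Rat.cast_neg, Rat.cast_one]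
      · rw [hmem, hodd, h1, neg_neg]
      · rw [hmem, h1]; norm_num
  set T := (Car.lst w S).prod with hT
  have hT0 : T ≠ 0 := hcar.lst_ne_zero bar_ne hS bar_bar
  have hY : ∀ Y ∈ A.NA, ∃ μ : ℂ, Y.baseChange ℂ * T - T * Y.baseChange ℂ = μ • T := by
    intro Y hY
    refine comm_gls hcar hS ?_
    rw [← hA.lie]
    exact bc_mem hY
  have h1 := comm_of_gen hgen T (fun Y hY' Z hZ' => by
    obtain ⟨μ, h1⟩ := hY Y hY'
    obtain ⟨ν, h2⟩ := hY Z hZ'
    rw [bc_br]
    exact comm_br h1 h2) (by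
      have h2 := comm_rho hcar hS x
      rw [Finset.sum_congr rfl fun σ _ => by rw [hsgn], hrel, mul_zero, zero_smul,
        sub_eq_zero] at h2
      rw [hX, h2])
  have h2 : ∀ z : E, IsCMField.complexConj E z = -z → ∑ σ, (h σ : ℂ) * σ z = 0 := by
    intro z hz
    obtain ⟨Z, hZ, hZ'⟩ := hA.all z hz
    have h3 := h1 Z hZ
    have h4 := comm_rho hcar hS z
    rw [← hZ', ← hT, h3, sub_self, Finset.sum_congr rfl fun σ _ => by rw [hsgn]] at h4
    have h5 := (smul_eq_zero.1 h4.symm).resolve_right hT0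
    rcases mul_eq_zero.1 h5 with h6 | h6
    · exfalso
      rcases mul_eq_zero.1 h6 with h7 | h7
      · exact (inv_ne_zero two_ne_zero) h7
      · exact hn (by exact_mod_cast h7)
    · exact h6
  have h3 : ∀ z : E, ∑ σ, (h σ : ℂ) * σ z = 0 := by
    intro z
    have h4 := h2 (z - IsCMField.complexConj E z) (by
      rw [map_sub, IsCMField.complexConj_apply_apply, neg_sub])
    have h5 : ∀ σ : E →+* ℂ, (h σ : ℂ) * σ (z - IsCMField.complexConj E z) =
        (h σ : ℂ) * σ z + (h (bar σ) : ℂ) * (bar σ) z := by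
      intro σ
      rw [map_sub, IsCMField.complexEmbedding_complexConj, hodd, bar_apply]
      push_cast
      ring
    rw [Finset.sum_congr rfl fun σ _ => h5 σ, Finset.sum_add_distrib,
      sum_bar (fun σ => (h σ : ℂ) * σ z), ← two_mul] at h4
    exact (mul_eq_zero.1 h4).resolve_left two_ne_zero
  have hli : LinearIndependent ℂ (fun σ : E →+* ℂ => (σ : E → ℂ)) := by
    refine (linearIndependent_monoidHom E ℂ).comp (fun σ : E →+* ℂ => (σ : E →* ℂ)) ?_
    intro σ τ hστ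
    ext z
    exact DFunLike.congr_fun hστ z
  funext σ
  have h4 := Fintype.linearIndependent_iff.1 hli (fun σ => (h σ : ℂ)) (by
    funext z
    rw [Finset.sum_apply]
    exact h3 z) σ
  exact_mod_cast h4

/-- For sign-rich fields there are no relations at all. -/
theorem no_rel [Nontrivial (Module.End ℂ (ℂ ⊗[ℚ] A.H1))] (hE : SignRich E) (hn : n ≠ 0)
    (hA : IsUnit A w)
    {x : E} (hx : IsCMField.complexConj E x = -x) {X : Module.End ℚ A.H1}
    (hX : X.baseChange ℂ = rho w x)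
    (hgen : ∀ T : Module.End ℚ A.H1,
      (∀ Y ∈ A.NA, ∀ Z ∈ A.NA, T * (Y * Z - Z * Y) = (Y * Z - Z * Y) * T) → T * X = X * T →
      ∀ Z ∈ A.CN, T * Z = Z * T) (h : (E →+* ℂ) → ℚ) (hodd : ∀ σ, h (bar σ) = -h σ)
    (hrel : ∑ σ, (h σ : ℂ) * σ x = 0) : h = 0 := by
  let V : Submodule ℚ ((E →+* ℂ) → ℚ) :=
    { carrier := {c | (∀ σ, c (bar σ) = -c σ) ∧ ∑ σ, (c σ : ℂ) * σ x = 0}
      zero_mem' := ⟨fun σ => by rw [Pi.zero_apply, Pi.zero_apply, neg_zero],
        Finset.sum_eq_zero fun σ _ => by rw [Pi.zero_apply, Rat.cast_zero, zero_mul]⟩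
      add_mem' := fun {c d} hc hd => ⟨fun σ => by
          rw [Pi.add_apply, Pi.add_apply, hc.1, hd.1]; ring, by
          rw [← add_zero (0 : ℂ)]
          nth_rewrite 1 [← hc.2]
          rw [← hd.2, ← Finset.sum_add_distrib]
          refine Finset.sum_congr rfl fun σ _ => ?_
          rw [Pi.add_apply]
          push_cast
          ring⟩
      smul_mem' := fun a c hc => ⟨fun σ => by
          rw [Pi.smul_apply, Pi.smul_apply, hc.1, smul_neg], by
          rw [← mul_zero (a : ℂ), ← hc.2, Finset.mul_sum]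
          refine Finset.sum_congr rfl fun σ _ => ?_
          rw [Pi.smul_apply, smul_eq_mul]
          push_cast
          ring⟩ }
  have hmem : ∀ c, c ∈ V ↔ (∀ σ, c (bar σ) = -c σ) ∧ ∑ σ, (c σ : ℂ) * σ x = 0 :=
    fun c => Iff.rfl
  by_cases hV : V = ⊥
  · have h1 : h ∈ V := ⟨hodd, hrel⟩
    rw [hV] at h1
    exact h1
  · exfalso
    obtain ⟨c, hc, hc0, hval⟩ := hE V hV (fun c hc => ((hmem c).1 hc).1) (fun s c hc => by
      obtain ⟨h1, h2⟩ := (hmem c).1 hc
      refine (hmem _).2 ⟨fun σ => ?_, ?_⟩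
      · have h3 := h1 (act s σ)
        rw [← act_bar] at h3
        exact h3
      · apply s.injective
        rw [map_zero, map_sum, ← h2]
        refine Fintype.sum_equiv (prm s : Equiv.Perm (E →+* ℂ)) _ _ fun σ => ?_
        rw [map_mul, map_ratCast]
        rfl)
    exact hc0 (no_small hn hA hx hX hgen c hc.1 hval hc.2)

theorem rho_eigen {v : ℂ ⊗[ℚ] A.H1}
    (h : ∀ p : (E →+* ℂ) × Fin n, (w p.1 p.2 * w (bar p.1) p.2) v = v ∨
      (w p.1 p.2 * w (bar p.1) p.2) v = 0) (x : E) :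
    ∃ m : (E →+* ℂ) → ℕ, ∀ x : E, rho w x v = (2⁻¹ * ∑ σ, (m σ : ℂ) * σ x) • v := by
  classical
  refine ⟨fun σ => (Finset.univ.filter fun i => (w σ i * w (bar σ) i) v = v).card, fun x => ?_⟩
  unfold rho
  rw [LinearMap.smul_apply, mul_smul, LinearMap.sum_apply, Finset.sum_smul]
  congr 1
  refine Finset.sum_congr rfl fun σ _ => ?_
  rw [LinearMap.sum_apply]
  have h1 : ∀ i : Fin n, (σ x • (w σ i * w (bar σ) i)) v =
      if (w σ i * w (bar σ) i) v = v then σ x • v else 0 := by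
    intro i
    rw [LinearMap.smul_apply]
    split_ifs with h2
    · rw [h2]
    · rw [(h (σ, i)).resolve_left h2, smul_zero]
  rw [Finset.sum_congr rfl fun i _ => h1 i, ← Finset.sum_filter, Finset.sum_const,
    ← Nat.cast_smul_eq_nsmul ℂ, smul_smul]

/-- The eigenvalues of the elements of the centre. -/
theorem exists_mult (hA : IsUnit A w) (x y : E)
    {v : ℂ ⊗[ℚ] A.H1} (hv : v ≠ 0) {a b : ℂ} (hx : rho w x v = a • v) (hy : rho w y v = b • v) :
    ∃ m : (E →+* ℂ) → ℕ, a = 2⁻¹ * ∑ σ, (m σ : ℂ) * σ x ∧ b = 2⁻¹ * ∑ σ, (m σ : ℂ) * σ y := by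
  classical
  have hcar : Car bar w := hA.car
  let P : (E →+* ℂ) × Fin n → Module.End ℂ (ℂ ⊗[ℚ] A.H1) := fun p => w p.1 p.2 * w (bar p.1) p.2
  have hrho : ∀ (x : E) (p : (E →+* ℂ) × Fin n), P p * rho w x = rho w x * P p := by
    intro x p
    unfold rho
    rw [mul_smul_comm, smul_mul_assoc, Finset.mul_sum, Finset.sum_mul]
    congr 1
    refine Finset.sum_congr rfl fun σ _ => ?_
    rw [Finset.mul_sum, Finset.sum_mul]
    refine Finset.sum_congr rfl fun i _ => ?_
    rw [mul_smul_comm, smul_mul_assoc]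
    congr 1
    exact hcar.proj_comm bar_bar _ _ _ _
  obtain ⟨v', h0, h1, h2, h3⟩ := exists_common P Finset.univ
    (fun p => hcar.proj_idem bar_ne p.1 p.2) (fun p q => hcar.proj_comm bar_bar _ _ _ _)
    (hrho x) (hrho y) hv hx hy
  obtain ⟨m, hm⟩ := rho_eigen (w := w) (v := v') (fun p => h3 p (Finset.mem_univ p)) x
  refine ⟨m, ?_, ?_⟩
  · exact smul_left_injective ℂ h0 (h1.symm.trans (hm x))
  · exact smul_left_injective ℂ h0 (h2.symm.trans (hm y))

/-- The centre is rigid. -/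
theorem centre_le [Nontrivial (Module.End ℂ (ℂ ⊗[ℚ] A.H1))] (hE : SignRich E) (hn : n ≠ 0)
    (hA : IsUnit A w) : A.CN ≤ A.LA := by
  refine A.centre_le fun X hX hgen Y hY => ?_
  obtain ⟨x, hx, hX'⟩ := hA.cen X hX
  obtain ⟨y, hy, hY'⟩ := hA.cen Y hY
  intro r v a b h0 ha hb hs
  have h1 : ∀ k, ∃ m : (E →+* ℂ) → ℕ, a k = 2⁻¹ * ∑ σ, (m σ : ℂ) * σ x ∧
      b k = 2⁻¹ * ∑ σ, (m σ : ℂ) * σ y := by
    intro k
    refine exists_mult hA x y (h0 k) ?_ ?_
    · rw [← hX', ha]
    · rw [← hY', hb]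
  choose m hma hmb using h1
  have hsum : ∀ (z : E) (c : Fin r → ℂ), (∀ k, c k = 2⁻¹ * ∑ σ, (m k σ : ℂ) * σ z) →
      IsCMField.complexConj E z = -z →
      ∑ k, c k = 4⁻¹ * ∑ σ, (((∑ k, (m k σ : ℚ)) - ∑ k, (m k (bar σ) : ℚ) : ℚ) : ℂ) * σ z := by
    intro z c hc hz
    have e1 : ∑ k, c k = 2⁻¹ * ∑ σ, (∑ k, (m k σ : ℂ)) * σ z := by
      rw [Finset.sum_congr rfl fun k _ => hc k, ← Finset.mul_sum, Finset.sum_comm]
      congr 1
      exact Finset.sum_congr rfl fun σ _ => by rw [Finset.sum_mul]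
    have e2 : ∑ σ, (∑ k, (m k (bar σ) : ℂ)) * σ z = -∑ σ, (∑ k, (m k σ : ℂ)) * σ z := by
      rw [← sum_bar fun σ => (∑ k, (m k σ : ℂ)) * σ z, ← Finset.sum_neg_distrib]
      refine Finset.sum_congr rfl fun σ _ => ?_
      rw [bar_skew hz]
      ring
    have e3 : ∑ σ, (((∑ k, (m k σ : ℚ)) - ∑ k, (m k (bar σ) : ℚ) : ℚ) : ℂ) * σ z =
        ∑ σ, (∑ k, (m k σ : ℂ)) * σ z - ∑ σ, (∑ k, (m k (bar σ) : ℂ)) * σ z := by
      rw [← Finset.sum_sub_distrib]
      refine Finset.sum_congr rfl fun σ _ => ?_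
      push_cast
      ring
    rw [e3, e2, e1]
    ring
  have h2 := hsum x a hma hx
  rw [hs] at h2
  have h3 : ∑ σ, (((∑ k, (m k σ : ℚ)) - ∑ k, (m k (bar σ) : ℚ) : ℚ) : ℂ) * σ x = 0 :=
    (mul_eq_zero.1 h2.symm).resolve_left (inv_ne_zero (by norm_num : (4 : ℂ) ≠ 0))
  have h4 := no_rel hE hn hA hx hX' hgen
    (fun σ => (∑ k, (m k σ : ℚ)) - ∑ k, (m k (bar σ) : ℚ)) (fun σ => by
      rw [bar_bar]; ring) h3
  rw [hsum y b hmb hy]
  rw [Finset.sum_eq_zero, mul_zero]
  intro σ _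
  have h5 := congrFun h4 σ
  simp only [Pi.zero_apply] at h5
  rw [h5, Rat.cast_zero, zero_mul]

/-- rank one: the Lie algebra is commutative -/
theorem comm_one {w : (E →+* ℂ) → Fin 1 → Module.End ℂ (ℂ ⊗[ℚ] A.H1)} (hA : IsUnit A w) :
    ∀ X ∈ A.NA, ∀ Y ∈ A.NA, X * Y - Y * X = 0 := by
  classical
  have hcar : Car bar w := hA.car
  have key : ∀ X ∈ gls w, ∀ Y ∈ gls w, X * Y = Y * X := by
    intro X hX
    unfold gls at hX
    induction hX using Submodule.span_induction with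
    | mem X hX =>
      obtain ⟨σ, i, j, rfl⟩ := hX
      intro Y hY
      unfold gls at hY
      induction hY using Submodule.span_induction with
      | mem Y hY =>
        obtain ⟨τ, i', j', rfl⟩ := hY
        rw [Subsingleton.elim j i, Subsingleton.elim j' i]
        obtain rfl : i' = i := Subsingleton.elim _ _
        have e1 := hcar.proj_comm bar_bar σ τ i' i'
        have e2 := hcar.proj_comm bar_bar (bar σ) τ i' i'
        have e3 := hcar.proj_comm bar_bar σ (bar τ) i' i'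
        have e4 := hcar.proj_comm bar_bar (bar σ) (bar τ) i' i'
        rw [bar_bar] at e2 e3 e4
        rw [bar_bar] at e4
        rw [sub_mul, mul_sub, mul_sub, sub_mul, mul_sub, mul_sub, e1, e2, e3, e4]
        abel
      | zero => rw [mul_zero, zero_mul]
      | add a b _ _ ha hb => rw [mul_add, add_mul, ha, hb]
      | smul c a _ ha => rw [mul_smul_comm, smul_mul_assoc, ha]
    | zero => intro Y _; rw [mul_zero, zero_mul]
    | add a b _ _ ha hb => intro Y hY; rw [mul_add, add_mul, ha Y hY, hb Y hY]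
    | smul c a _ ha => intro Y hY; rw [mul_smul_comm, smul_mul_assoc, ha Y hY]
  intro X hX Y hY
  have h1 := key _ (hA.lie ▸ bc_mem hX) _ (hA.lie ▸ bc_mem hY)
  have h2 : X * Y - Y * X ∈ (⊥ : Submodule ℚ (Module.End ℚ A.H1)) := by
    refine mem_of_bc ?_
    rw [bc_br, h1, sub_self]
    exact Submodule.zero_mem _
  exact (Submodule.mem_bot ℚ).1 h2

/-- even rank: the derived algebra -/
theorem der_even (hn : Even n) (hA : IsUnit A w) :
    ∀ X ∈ A.NA, ∀ Y ∈ A.NA, X * Y - Y * X ∈ A.LA := by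
  classical
  have hcar : Car bar w := hA.car
  let e := Fintype.equivFin (InfinitePlace E)
  let em : Fin (Fintype.card (InfinitePlace E)) → (E →+* ℂ) := fun κ => (e.symm κ).embedding
  have hem : ∀ κ κ', em κ = em κ' → κ = κ' := by
    intro κ κ' h
    have h1 : InfinitePlace.mk (em κ) = InfinitePlace.mk (em κ') := by rw [h]
    rw [InfinitePlace.mk_embedding, InfinitePlace.mk_embedding] at h1
    exact e.symm.injective h1
  have hem' : ∀ κ κ', em κ ≠ bar (em κ') := by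
    intro κ κ' h
    have h1 : InfinitePlace.mk (em κ) = InfinitePlace.mk (em κ') := by
      rw [h]
      exact InfinitePlace.mk_conjugate_eq _
    rw [InfinitePlace.mk_embedding, InfinitePlace.mk_embedding] at h1
    have h2 := e.symm.injective h1
    subst h2
    exact bar_ne _ h.symm
  have hcase : ∀ σ : E →+* ℂ, (∃ κ, σ = em κ) ∨ ∃ κ, σ = bar (em κ) := by
    intro σ
    have h1 := InfinitePlace.mk_embedding (InfinitePlace.mk σ)
    rw [InfinitePlace.mk_eq_iff] at h1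
    have h2 : em (e (InfinitePlace.mk σ)) = (InfinitePlace.mk σ).embedding := by
      simp only [em]
      rw [Equiv.symm_apply_apply]
    rcases h1 with h1 | h1
    · exact Or.inl ⟨e (InfinitePlace.mk σ), by rw [h2, h1]⟩
    · exact Or.inr ⟨e (InfinitePlace.mk σ), by rw [h2]; exact h1.symm⟩
  have hC : Pool.Agent.R918.Car
      (fun p : Fin (Fintype.card (InfinitePlace E)) × Fin n => w (em p.1) p.2)
      (fun p => w (bar (em p.1)) p.2) := by
    refine ⟨fun p q => ?_, fun p q => ?_, fun p q => ?_⟩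
    · exact hcar.anti fun h => hem' _ _ h.1
    · refine hcar.anti fun h => ?_
      have h1 := h.1
      rw [bar_bar] at h1
      exact hem' _ _ h1.symm
    · beta_reduce
      by_cases hpq : p = q
      · subst hpq
        rw [if_pos rfl, hcar.2]
      · rw [if_neg hpq, hcar.anti, neg_add_cancel]
        rintro ⟨h1, h2⟩
        apply hpq
        have h3 := congrArg bar h1
        rw [bar_bar, bar_bar] at h3
        exact Prod.ext (hem _ _ h3).symm h2
  have hle : cx A.NA ≤ Pool.Agent.R918.glC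
      (fun p : Fin (Fintype.card (InfinitePlace E)) × Fin n => w (em p.1) p.2)
      (fun p => w (bar (em p.1)) p.2) := by
    rw [hA.lie]
    unfold gls
    rw [Submodule.span_le]
    rintro _ ⟨σ, i, j, rfl⟩
    rcases hcase σ with ⟨κ, rfl⟩ | ⟨κ, rfl⟩
    · exact Submodule.subset_span ⟨κ, i, j, rfl⟩
    · rw [bar_bar, ← neg_sub]
      exact Submodule.neg_mem _ (Submodule.subset_span ⟨κ, j, i, rfl⟩)
  refine (Pool.Agent.R918.full_unitary A.full_LA hn hC hle fun κ i j => ?_).1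
  beta_reduce
  have h1 : w (em κ) i * w (bar (em κ)) j - w (bar (em κ)) j * w (em κ) i ∈
      Algebra.adjoin ℂ (cx A.NA : Set (Module.End ℂ (ℂ ⊗[ℚ] A.H1))) := by
    refine Algebra.subset_adjoin ?_
    change _ ∈ cx A.NA
    rw [hA.lie]
    exact Submodule.subset_span ⟨em κ, i, j, rfl⟩
  have h2 := hcar.pair (em κ) i j
  have h3 : w (em κ) i * w (bar (em κ)) j =
      (2⁻¹ : ℂ) • ((w (em κ) i * w (bar (em κ)) j - w (bar (em κ)) j * w (em κ) i) +
        if i = j then 1 else 0) := by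
    rw [← h2]
    module
  rw [h3]
  refine Subalgebra.smul_mem _ (Subalgebra.add_mem _ h1 ?_) _
  split_ifs
  · exact Subalgebra.one_mem _
  · exact Subalgebra.zero_mem _

/-- **The Lie algebra of the de Rham-Betti classes is everything.** -/
theorem NA_le (hE : SignRich E) (hn : n = 1 ∨ (Even n ∧ n ≠ 0)) (hA : IsUnit A w) :
    A.NA ≤ A.LA := by
  rcases subsingleton_or_nontrivial (Module.End ℂ (ℂ ⊗[ℚ] A.H1)) with hs | hnt
  · intro X _
    refine mem_of_bc ?_
    rw [Subsingleton.elim (X.baseChange ℂ) 0]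
    exact Submodule.zero_mem _
  · have hn0 : n ≠ 0 := by
      rcases hn with h | h
      · omega
      · exact h.2
    have h1 : ∀ X ∈ A.NA, ∀ Y ∈ A.NA, X * Y - Y * X ∈ A.LA := by
      rcases hn with h | h
      · subst h
        intro X hX Y hY
        rw [comm_one hA X hX Y hY]
        exact Submodule.zero_mem _
      · exact der_even h.1 hA
    exact (AbVar.NA_le_of_rigid h1).trans (sup_le le_rfl (centre_le hE hn0 hA))

theorem drb_iff {m : ℕ} {φ : MultilinearMap ℚ (fun _ : Fin m × Fin 2 => A.H1) ℚ} :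
    (∃ c : (Fin m × Fin 2 → Fin g ⊕ Fin g) → QBar, ∀ v : Fin m × Fin 2 → A.H1,
      (2 * Real.pi * Complex.I : ℂ) ^ (m : ℤ) * (φ v : ℂ) =
        ∑ J, algebraMap QBar ℂ (c J) * ∏ l, A.dR (J l) (v l)) ↔
    IsDeRhamBettiForm QBar A.dR tau m φ := by
  unfold IsDeRhamBettiForm
  simp only [zpow_natCast]
  rfl

theorem NA_le_of_matrix (hE : SignRich E) (hn : n = 1 ∨ (Even n ∧ n ≠ 0))
    {w : (E →+* ℂ) → Fin n → Matrix (Fin (2 * g)) (Fin (2 * g)) ℂ} (hcar : Car bar w)
    (hlie : Submodule.span ℂ {Y | ∃ X ∈ A.NA, Y = toC X} = gls w)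
    (hcen : ∀ X ∈ A.CN, ∃ x : E, IsCMField.complexConj E x = -x ∧ toC X = rho w x)
    (hall : ∀ x : E, IsCMField.complexConj E x = -x → ∃ X ∈ A.CN, toC X = rho w x) :
    A.NA ≤ A.LA := by
  have hrho : ∀ x : E, matE (2 * g) (rho w x) = rho (fun σ i => matE (2 * g) (w σ i)) x := by
    intro x
    unfold rho
    rw [map_smul, map_sum]
    congr 1
    refine Finset.sum_congr rfl fun σ _ => ?_
    rw [map_sum]
    refine Finset.sum_congr rfl fun i _ => ?_
    rw [map_smul, map_mul]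
  refine NA_le hE hn (w := fun σ i => matE (2 * g) (w σ i)) ⟨⟨fun σ i τ j h => ?_, fun σ i => ?_⟩,
    ?_, fun X hX => ?_, fun x hx => ?_⟩
  · rw [← map_mul, hcar.1 σ i τ j h, map_neg, map_mul]
  · rw [← map_mul, ← map_mul, ← map_add, hcar.2, map_one]
  · rw [← map_lie, hlie]
    unfold gls
    rw [Submodule.map_span]
    congr 1
    ext Y
    constructor
    · rintro ⟨_, ⟨σ, i, j, rfl⟩, rfl⟩
      refine ⟨σ, i, j, ?_⟩
      change matE (2 * g) _ = _
      rw [map_sub, map_mul, map_mul]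
    · rintro ⟨σ, i, j, rfl⟩
      refine ⟨_, ⟨σ, i, j, rfl⟩, ?_⟩
      change matE (2 * g) _ = _
      rw [map_sub, map_mul, map_mul]
  · obtain ⟨x, hx, h⟩ := hcen X hX
    exact ⟨x, hx, by rw [← matE_toC, h, hrho]⟩
  · obtain ⟨X, hX, h⟩ := hall x hx
    exact ⟨X, hX, by rw [← matE_toC, h, hrho]⟩

end av

end Pool.Agent.L0h12.CM
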