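import Pool.Agent.L0h12.CM.Rich

set_option autoImplicit false
set_option linter.unusedSectionVars false

/-!
# CM fields whose maximal real subfield has prime degree
-/

namespace Pool.Agent.L0h12.CM

open NumberField Module

noncomputable section

/-- The permutations of the embeddings of a number field, as a homomorphism. -/
def prmHom (F : Type) [Field F] : (ℂ ≃+* ℂ) →* Equiv.Perm (F →+* ℂ) where
  toFun s := ⟨act s, act s⁻¹, act_inv_act s, act_act_inv s⟩
  map_one' := rfl
  map_mul' _ _ := rfl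

theorem prmHom_apply {F : Type} [Field F] (s : ℂ ≃+* ℂ) (σ : F →+* ℂ) :
    prmHom F s σ = act s σ := rfl

/-- In prime degree some automorphism permutes the embeddings cyclically. -/
theorem exists_cyclic {F : Type} [Field F] [NumberField F] {p : ℕ} (hp : p.Prime)
    (h : finrank ℚ F = p) : ∃ s : ℂ ≃+* ℂ, ∀ σ τ : F →+* ℂ, ∃ i : ℤ, act (s ^ i) σ = τ := by
  classical
  have hcard : Fintype.card (F →+* ℂ) = p := by rw [NumberField.Embeddings.card, h]
  let H := (prmHom F).range
  have _ : Fintype H := Fintype.ofFinite H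
  have htr : MulAction.IsPretransitive H (F →+* ℂ) := ⟨fun σ τ => by
    obtain ⟨s, hs⟩ := exists_act σ τ
    exact ⟨⟨prmHom F s, s, rfl⟩, hs⟩⟩
  obtain ⟨σ₀⟩ : Nonempty (F →+* ℂ) := inferInstance
  have hdvd : p ∣ Fintype.card H := by
    have h1 := MulAction.index_stabilizer_of_transitive H σ₀
    rw [Nat.card_eq_fintype_card, hcard] at h1
    rw [← h1, ← Nat.card_eq_fintype_card]
    exact Subgroup.index_dvd_card _
  have _ : Fact p.Prime := ⟨hp⟩
  obtain ⟨⟨x, s, rfl⟩, hx⟩ := exists_prime_orderOf_dvd_card p hdvd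
  have hx' : orderOf (prmHom F s) = Fintype.card (F →+* ℂ) := by
    rw [hcard, ← hx]
    exact (Subgroup.orderOf_coe (⟨prmHom F s, s, rfl⟩ : H))
  have hcyc : (prmHom F s).IsCycle := Equiv.Perm.isCycle_of_prime_order'' (by rw [hcard]; exact hp) hx'
  have hsupp : (prmHom F s).support = Finset.univ := by
    rw [← Finset.card_eq_iff_eq_univ, ← hcyc.orderOf, hx']
  refine ⟨s, fun σ τ => ?_⟩
  have hmem : ∀ σ, prmHom F s σ ≠ σ := fun σ => Equiv.Perm.mem_support.1 (by rw [hsupp]; exact Finset.mem_univ σ)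
  obtain ⟨i, hi⟩ := hcyc.exists_zpow_eq (hmem σ) (hmem τ)
  refine ⟨i, ?_⟩
  rw [← map_zpow, prmHom_apply] at hi
  exact hi

variable {E : Type} [Field E] [NumberField E] [IsCMField E]

theorem eq_or_bar {σ τ : E →+* ℂ}
    (h : σ.comp (algebraMap (maximalRealSubfield E) E) =
      τ.comp (algebraMap (maximalRealSubfield E) E)) : τ = σ ∨ τ = bar σ := by
  have h1 : IsCMField.equivInfinitePlace E (InfinitePlace.mk σ) =
      IsCMField.equivInfinitePlace E (InfinitePlace.mk τ) := by
    rw [IsCMField.equivInfinitePlace_apply, IsCMField.equivInfinitePlace_apply,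
      InfinitePlace.comap_mk, InfinitePlace.comap_mk, h]
  have h2 := (IsCMField.equivInfinitePlace E).injective h1
  rcases InfinitePlace.mk_eq_iff.1 h2 with h3 | h3
  · exact Or.inl h3.symm
  · exact Or.inr h3.symm

theorem abelianTransitive_of_prime {p : ℕ} (hp : p.Prime) (h : finrank ℚ E = 2 * p) :
    AbelianTransitive E := by
  have hF : finrank ℚ (maximalRealSubfield E) = p := by
    have h1 := Module.finrank_mul_finrank ℚ (maximalRealSubfield E) E
    rw [Algebra.IsQuadraticExtension.finrank_eq_two (maximalRealSubfield E) E, h] at h1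
    omega
  obtain ⟨s, hs⟩ := exists_cyclic hp hF
  refine ⟨Subgroup.zpowers s, ?_, fun σ τ => ?_⟩
  · rintro _ ⟨i, rfl⟩ _ ⟨j, rfl⟩ σ
    change act (s ^ i) (act (s ^ j) σ) = act (s ^ j) (act (s ^ i) σ)
    rw [← act_mul, ← act_mul, ← zpow_add, ← zpow_add, add_comm]
  · obtain ⟨i, hi⟩ := hs (σ.comp (algebraMap (maximalRealSubfield E) E))
      (τ.comp (algebraMap (maximalRealSubfield E) E))
    refine ⟨s ^ i, ⟨i, rfl⟩, ?_⟩
    exact eq_or_bar (σ := act (s ^ i) σ) hi

end

end Pool.Agent.L0h12.CM
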